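import Mathlib

/-!
# The FKG inequality fails for percolation with constant freezing

On the tree with six vertices `0, …, 5` and edges `01, 02, 05, 14, 23` the two increasing events
`some edge at 0 is open` and `14 or 23 is open` are negatively correlated for small freezing rate:
their complements have probabilities of order `α`, while the intersection of the complements (no
edge open at all) requires three freezings and has probability of order `α ^ 3`.
-/

set_option autoImplicit false

namespace Pool.Agent.Results.MP_b6680e_pr.FKGFails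

open Finset Filter Topology

variable {V : Type*} [Fintype V] [DecidableEq V]

/-- A state of the process: the set of open edges and the set of frozen vertices. -/
abbrev State (V : Type*) : Type _ := Finset (Sym2 V) × Finset V

/-- The cluster of `v`: its connected component in the graph of open edges. -/
noncomputable def cluster (s : State V) (v : V) : Finset V :=
  open Classical in
  Finset.univ.filter fun u => (SimpleGraph.fromEdgeSet (s.1 : Set (Sym2 V))).Reachable v u

/-- The transition from `s` to `s'` opens a closed edge of `G` with two warm endpoints. -/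
def Opens (G : SimpleGraph V) (s s' : State V) : Prop :=
  ∃ e ∈ G.edgeSet, e ∉ s.1 ∧ (∀ v ∈ e, v ∉ s.2) ∧ s' = (insert e s.1, s.2)

/-- The transition from `s` to `s'` freezes a warm cluster. -/
def Freezes (s s' : State V) : Prop :=
  ∃ v, (∀ u ∈ cluster s v, u ∉ s.2) ∧ s' = (s.1, s.2 ∪ cluster s v)

/-- The transition rates of percolation with constant freezing at rate `α`: rate `1` for the opening
of an edge, rate `α` for the freezing of a cluster. -/
noncomputable def rate (G : SimpleGraph V) (α : ℝ) (s s' : State V) : ℝ :=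
  open Classical in
  (if Opens G s s' then 1 else 0) + (if Freezes s s' then α else 0)

/-- The total rate of leaving `s`. -/
noncomputable def total (G : SimpleGraph V) (α : ℝ) (s : State V) : ℝ := ∑ s', rate G α s s'

/-- The transition operator of the embedded jump chain (absorbing states are not left). -/
noncomputable def J (G : SimpleGraph V) (α : ℝ) (f : State V → ℝ) (s : State V) : ℝ :=
  open Classical in
  if total G α s = 0 then f s else (∑ s', rate G α s s' * f s') / total G α s

/-- The indicator of the event that the set of open edges belongs to `A`. -/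
noncomputable def ind (A : Set (Finset (Sym2 V))) (s : State V) : ℝ :=
  open Classical in if s.1 ∈ A then 1 else 0

/-- The probability that the set of open edges belongs to `A` after `n` jumps of the process
started with all vertices warm and all edges closed. -/
noncomputable def jumpProb (G : SimpleGraph V) (α : ℝ) (n : ℕ) (A : Set (Finset (Sym2 V))) : ℝ :=
  (J G α)^[n] (ind A) (∅, ∅)

/-- `p` is the probability of the event `A` under the law of the final edge configuration. -/
def IsFinalProb (G : SimpleGraph V) (α : ℝ) (A : Set (Finset (Sym2 V))) (p : ℝ) : Prop :=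
  Tendsto (fun n => jumpProb G α n A) atTop (𝓝 p)

/-- Increasing events. -/
def Increasing (A : Set (Finset (Sym2 V))) : Prop := ∀ ω ω', ω ∈ A → ω ⊆ ω' → ω' ∈ A

/-! ### General facts -/

section general

variable (G : SimpleGraph V) (α : ℝ)

lemma rate_nonneg (hα : 0 < α) (s s' : State V) : 0 ≤ rate G α s s' := by
  unfold rate
  split_ifs <;> linarith

lemma total_nonneg (hα : 0 < α) (s : State V) : 0 ≤ total G α s :=
  Finset.sum_nonneg fun _ _ => rate_nonneg G α hα s _

lemma rate_eq_zero_of_total (hα : 0 < α) (s s' : State V) (h : total G α s = 0) :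
    rate G α s s' = 0 :=
  (Finset.sum_eq_zero_iff_of_nonneg fun _ _ => rate_nonneg G α hα s _).1 h s' (Finset.mem_univ _)

/-- Self-transitions do not occur: the remaining capacity decreases. -/
noncomputable def cap (s : State V) : ℕ :=
  open Classical in (G.edgeFinset \ s.1).card + (Finset.univ \ s.2).card

lemma mem_cluster_self (s : State V) (v : V) : v ∈ cluster s v := by
  classical
  unfold cluster
  rw [Finset.mem_filter]
  exact ⟨Finset.mem_univ _, SimpleGraph.Reachable.refl _⟩

lemma cap_lt (s s' : State V) (h : rate G α s s' ≠ 0) : cap G s' < cap G s := by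
  classical
  unfold rate at h
  have h2 : Opens G s s' ∨ Freezes s s' := by
    by_contra hcon
    push Not at hcon
    rw [if_neg hcon.1, if_neg hcon.2, add_zero] at h
    exact h rfl
  unfold cap
  rcases h2 with ⟨e, he, hes, -, rfl⟩ | ⟨v, hv, rfl⟩
  · have : (G.edgeFinset \ insert e s.1).card < (G.edgeFinset \ s.1).card := by
      apply Finset.card_lt_card
      rw [Finset.ssubset_iff_of_subset]
      · refine ⟨e, ?_, ?_⟩
        · rw [Finset.mem_sdiff, SimpleGraph.mem_edgeFinset]
          exact ⟨he, hes⟩
        · simp
      · exact Finset.sdiff_subset_sdiff (Finset.Subset.refl _) (Finset.subset_insert _ _)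
    simp only
    omega
  · have hvc := mem_cluster_self s v
    have : (Finset.univ \ (s.2 ∪ cluster s v)).card < (Finset.univ \ s.2).card := by
      apply Finset.card_lt_card
      rw [Finset.ssubset_iff_of_subset]
      · refine ⟨v, ?_, ?_⟩
        · simp [hv v hvc]
        · simp [hvc]
      · exact Finset.sdiff_subset_sdiff (Finset.Subset.refl _) Finset.subset_union_left
    simp only
    omega

lemma total_eq_zero_of_cap (s : State V) (h : cap G s = 0) : total G α s = 0 := by
  unfold total
  apply Finset.sum_eq_zero
  intro s' _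
  by_contra hne
  have := cap_lt G α s s' hne
  omega

lemma J_absorbed (f : State V → ℝ) (s : State V) (h : total G α s = 0) : J G α f s = f s := by
  unfold J
  rw [if_pos h]

lemma iter_absorbed (n : ℕ) (f : State V → ℝ) (s : State V) (h : total G α s = 0) :
    (J G α)^[n] f s = f s := by
  induction n generalizing f with
  | zero => rfl
  | succ n ih => rw [Function.iterate_succ_apply, ih, J_absorbed G α f s h]

/-- After enough jumps only the absorbing states matter. -/
lemma iter_congr (n : ℕ) (f g : State V → ℝ) (hfg : ∀ s, total G α s = 0 → f s = g s)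
    (s : State V) (hs : cap G s ≤ n) : (J G α)^[n] f s = (J G α)^[n] g s := by
  induction n generalizing s with
  | zero => exact hfg s (total_eq_zero_of_cap G α s (by omega))
  | succ n ih =>
    by_cases h : total G α s = 0
    · rw [iter_absorbed G α _ _ _ h, iter_absorbed G α _ _ _ h, hfg s h]
    · rw [Function.iterate_succ_apply', Function.iterate_succ_apply']
      unfold J
      rw [if_neg h, if_neg h]
      congr 1
      refine Finset.sum_congr rfl fun s' _ => ?_
      by_cases h0 : rate G α s s' = 0
      · rw [h0, zero_mul, zero_mul]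
      · have := cap_lt G α s s' h0
        have h2 := ih s' (by omega)
        unfold J at h2
        rw [h2]

lemma iter_const (n : ℕ) (f : State V → ℝ) (s : State V) (hs : cap G s ≤ n) :
    (J G α)^[n] f s = (J G α)^[cap G s] f s := by
  induction n with
  | zero =>
    have : cap G s = 0 := by omega
    rw [this]
  | succ n ih =>
    by_cases h : cap G s ≤ n
    · rw [← ih h, Function.iterate_succ_apply]
      exact iter_congr G α n (J G α f) f (fun s' h' => J_absorbed G α f s' h') s h
    · have : cap G s = n + 1 := by omega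
      rw [this]

/-- The final probability of an event. -/
noncomputable def fin (A : Set (Finset (Sym2 V))) : ℝ :=
  jumpProb G α (cap G ((∅, ∅) : State V)) A

lemma isFinalProb_fin (A : Set (Finset (Sym2 V))) : IsFinalProb G α A (fin G α A) := by
  unfold IsFinalProb
  apply tendsto_const_nhds.congr'
  filter_upwards [eventually_ge_atTop (cap G ((∅, ∅) : State V))] with n hn
  unfold jumpProb fin
  exact (iter_const G α n _ _ hn).symm

lemma J_mono (hα : 0 < α) (f g : State V → ℝ) (hfg : ∀ s, f s ≤ g s) (s : State V) :
    J G α f s ≤ J G α g s := by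
  unfold J
  split_ifs with h
  · exact hfg s
  · apply div_le_div_of_nonneg_right _ (total_nonneg G α hα s)
    exact Finset.sum_le_sum fun s' _ =>
      mul_le_mul_of_nonneg_left (hfg s') (rate_nonneg G α hα s s')

lemma iter_mono (hα : 0 < α) (n : ℕ) (f g : State V → ℝ) (hfg : ∀ s, f s ≤ g s) (s : State V) :
    (J G α)^[n] f s ≤ (J G α)^[n] g s := by
  induction n generalizing f g with
  | zero => exact hfg s
  | succ n ih =>
    rw [Function.iterate_succ_apply, Function.iterate_succ_apply]
    exact ih _ _ (J_mono G α hα f g hfg)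

lemma J_lin (f g : State V → ℝ) (a b c : ℝ) (s : State V) :
    J G α (fun s => a * f s + b * g s + c) s = a * J G α f s + b * J G α g s + c := by
  unfold J
  split_ifs with h
  · rfl
  · have : ∑ s', rate G α s s' * (a * f s' + b * g s' + c) =
        a * ∑ s', rate G α s s' * f s' + b * ∑ s', rate G α s s' * g s' + c * total G α s := by
      unfold total
      rw [Finset.mul_sum, Finset.mul_sum, Finset.mul_sum, ← Finset.sum_add_distrib,
        ← Finset.sum_add_distrib]
      refine Finset.sum_congr rfl fun s' _ => ?_
      ring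
    rw [this]
    field_simp

lemma iter_lin (n : ℕ) (f g : State V → ℝ) (a b c : ℝ) (s : State V) :
    (J G α)^[n] (fun s => a * f s + b * g s + c) s =
      a * (J G α)^[n] f s + b * (J G α)^[n] g s + c := by
  induction n generalizing f g with
  | zero => rfl
  | succ n ih =>
    rw [Function.iterate_succ_apply, Function.iterate_succ_apply, Function.iterate_succ_apply]
    have : J G α (fun s => a * f s + b * g s + c) =
        fun s => a * J G α f s + b * J G α g s + c := by
      funext s
      exact J_lin G α f g a b c s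
    rw [this, ih]

/-- A closed set of states is never left. -/
lemma iter_closed (C : Set (State V)) (hC : ∀ s ∈ C, ∀ s', rate G α s s' ≠ 0 → s' ∈ C)
    (f : State V → ℝ) (hf : ∀ s ∈ C, f s = 1) (n : ℕ) (s : State V) (hs : s ∈ C) :
    (J G α)^[n] f s = 1 := by
  induction n generalizing s with
  | zero => exact hf s hs
  | succ n ih =>
    rw [Function.iterate_succ_apply']
    by_cases h : total G α s = 0
    · rw [J_absorbed G α _ s h]
      exact ih s hs
    · have e : J G α ((J G α)^[n] f) s =
          (∑ s', rate G α s s' * (J G α)^[n] f s') / total G α s := by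
        conv_lhs => unfold J
        rw [if_neg h]
        rfl
      rw [e, div_eq_one_iff_eq h]
      unfold total
      refine Finset.sum_congr rfl fun s' _ => ?_
      by_cases h0 : rate G α s s' = 0
      · rw [h0, zero_mul]
      · rw [ih s' (hC s hs s' h0), mul_one]

/-- Lower bound through one transition. -/
lemma iter_succ_ge (hα : 0 < α) (f : State V → ℝ) (hf : ∀ s, 0 ≤ f s) (s s' : State V) (n : ℕ)
    (T : ℝ) (hT : total G α s ≤ T) (hr : 0 < rate G α s s') :
    rate G α s s' / T * (J G α)^[n] f s' ≤ (J G α)^[n + 1] f s := by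
  have hnn : ∀ s, 0 ≤ (J G α)^[n] f s := by
    intro s
    have := iter_mono G α hα n (fun _ => 0) f hf s
    have h0 : (J G α)^[n] (fun _ => (0 : ℝ)) s = 0 := by
      have := iter_lin G α n (fun _ => 0) (fun _ => 0) 0 0 0 s
      simpa using this
    rw [h0] at this
    exact this
  have hle : rate G α s s' ≤ total G α s :=
    Finset.single_le_sum (f := fun s' => rate G α s s')
      (fun s'' _ => rate_nonneg G α hα s s'') (Finset.mem_univ s')
  have htot : 0 < total G α s := lt_of_lt_of_le hr hle
  rw [Function.iterate_succ_apply']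
  have e : J G α ((J G α)^[n] f) s =
      (∑ s', rate G α s s' * (J G α)^[n] f s') / total G α s := by
    conv_lhs => unfold J
    rw [if_neg htot.ne']
    rfl
  rw [e]
  have h1 : rate G α s s' * (J G α)^[n] f s' ≤ ∑ s', rate G α s s' * (J G α)^[n] f s' :=
    Finset.single_le_sum (f := fun s' => rate G α s s' * (J G α)^[n] f s')
      (fun s'' _ => mul_nonneg (rate_nonneg G α hα s s'') (hnn s'')) (Finset.mem_univ s')
  calc rate G α s s' / T * (J G α)^[n] f s'
      ≤ rate G α s s' / total G α s * (J G α)^[n] f s' := by
        apply mul_le_mul_of_nonneg_right _ (hnn s')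
        exact div_le_div_of_nonneg_left hr.le htot hT
    _ = (rate G α s s' * (J G α)^[n] f s') / total G α s := by ring
    _ ≤ _ := div_le_div_of_nonneg_right h1 htot.le

lemma rate_le_total (hα : 0 < α) (s s' : State V) : rate G α s s' ≤ total G α s :=
  Finset.single_le_sum (f := fun s' => rate G α s s')
    (fun s'' _ => rate_nonneg G α hα s s'') (Finset.mem_univ s')

lemma card_freezes (s : State V) [DecidablePred fun s' => Freezes s s'] :
    (Finset.univ.filter fun s' => Freezes s s').card ≤ Fintype.card V := by
  have : (Finset.univ.filter fun s' => Freezes s s') ⊆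
      Finset.univ.image fun v => ((s.1, s.2 ∪ cluster s v) : State V) := by
    intro s' hs'
    obtain ⟨v, -, rfl⟩ := (Finset.mem_filter.1 hs').2
    exact Finset.mem_image.2 ⟨v, Finset.mem_univ _, rfl⟩
  exact (Finset.card_le_card this).trans Finset.card_image_le

/-- Bound for sums in which only freezings contribute. -/
lemma sum_le_freezes (s : State V) (φ : State V → ℝ) (x : ℝ) (hx : 0 ≤ x)
    (h1 : ∀ s', Freezes s s' → φ s' ≤ x) (h2 : ∀ s', ¬ Freezes s s' → φ s' ≤ 0) :
    ∑ s', φ s' ≤ Fintype.card V * x := by
  classical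
  have h3 : ∀ s', φ s' ≤ if Freezes s s' then x else 0 := by
    intro s'
    by_cases h : Freezes s s'
    · rw [if_pos h]; exact h1 s' h
    · rw [if_neg h]; exact h2 s' h
  refine le_trans (Finset.sum_le_sum fun s' _ => h3 s') ?_
  rw [← Finset.sum_filter, Finset.sum_const, nsmul_eq_mul]
  apply mul_le_mul_of_nonneg_right _ hx
  exact_mod_cast card_freezes s

/-- Bound for sums of a function which is at most one. -/
lemma sum_le_total (hα : 0 < α) (s : State V) (φ : State V → ℝ) (h : ∀ s', φ s' ≤ 1) :
    ∑ s', rate G α s s' * φ s' ≤ total G α s := by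
  unfold total
  refine Finset.sum_le_sum fun s' _ => ?_
  calc rate G α s s' * φ s' ≤ rate G α s s' * 1 :=
        mul_le_mul_of_nonneg_left (h s') (rate_nonneg G α hα s s')
    _ = rate G α s s' := mul_one _

lemma sum_eq_zero' (φ : State V → ℝ) (h : ∀ s', φ s' = 0) : ∑ s', φ s' = 0 :=
  Finset.sum_eq_zero fun s' _ => h s'

lemma J_eq (f : State V → ℝ) (s : State V) (h : total G α s ≠ 0) :
    J G α f s = (∑ s', rate G α s s' * f s') / total G α s := by
  unfold J
  rw [if_neg h]

/-- The total rate is at most the number of edges plus `α` times the number of vertices. -/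
lemma total_le (hα : 0 < α) (s : State V) [DecidableRel G.Adj] :
    total G α s ≤ (G.edgeFinset.card : ℝ) + α * Fintype.card V := by
  classical
  unfold total rate
  rw [Finset.sum_add_distrib]
  have h1 : ∑ s', (if Opens G s s' then (1 : ℝ) else 0) ≤ (G.edgeFinset.card : ℝ) := by
    rw [← Finset.sum_filter, Finset.sum_const, nsmul_eq_mul, mul_one]
    have : (Finset.univ.filter fun s' => Opens G s s') ⊆
        G.edgeFinset.image fun e => ((insert e s.1, s.2) : State V) := by
      intro s' hs'
      obtain ⟨e, he, -, -, rfl⟩ := (Finset.mem_filter.1 hs').2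
      exact Finset.mem_image.2 ⟨e, by rw [SimpleGraph.mem_edgeFinset]; exact he, rfl⟩
    exact_mod_cast (Finset.card_le_card this).trans Finset.card_image_le
  have h2 : ∑ s', (if Freezes s s' then α else 0) ≤ α * Fintype.card V := by
    rw [← Finset.sum_filter, Finset.sum_const, nsmul_eq_mul, mul_comm]
    apply mul_le_mul_of_nonneg_left _ hα.le
    have : (Finset.univ.filter fun s' => Freezes s s') ⊆
        Finset.univ.image fun v => ((s.1, s.2 ∪ cluster s v) : State V) := by
      intro s' hs'
      obtain ⟨v, -, rfl⟩ := (Finset.mem_filter.1 hs').2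
      exact Finset.mem_image.2 ⟨v, Finset.mem_univ _, rfl⟩
    exact_mod_cast (Finset.card_le_card this).trans Finset.card_image_le
  linarith

end general

/-! ### The tree -/

/-- The tree with vertices `0, …, 5` and edges `01, 02, 05, 14, 23`. -/
def T : SimpleGraph (Fin 6) :=
  SimpleGraph.fromEdgeSet {s(0, 1), s(0, 2), s(0, 5), s(1, 4), s(2, 3)}

/-- Some edge at the vertex `0` is open. -/
def evA : Set (Finset (Sym2 (Fin 6))) := {ω | s(0, 1) ∈ ω ∨ s(0, 2) ∈ ω ∨ s(0, 5) ∈ ω}

/-- One of the edges `14`, `23` is open. -/
def evB : Set (Finset (Sym2 (Fin 6))) := {ω | s(1, 4) ∈ ω ∨ s(2, 3) ∈ ω}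

lemma mem_T (e : Sym2 (Fin 6)) : e ∈ T.edgeSet ↔
    e = s(0, 1) ∨ e = s(0, 2) ∨ e = s(0, 5) ∨ e = s(1, 4) ∨ e = s(2, 3) := by
  unfold T
  rw [SimpleGraph.edgeSet_fromEdgeSet]
  simp only [Set.mem_sdiff, Set.mem_insert_iff, Set.mem_singleton_iff]
  constructor
  · exact fun h => h.1
  · intro h
    refine ⟨h, ?_⟩
    rcases h with rfl | rfl | rfl | rfl | rfl <;> simp

lemma total_T (α : ℝ) (hα : 0 < α) (hα1 : α ≤ 1 / 6) (s : State (Fin 6)) : total T α s ≤ 6 := by
  classical
  have h1 := total_le T α hα s
  have h2 : T.edgeFinset.card ≤ 5 := by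
    have : T.edgeFinset ⊆ {s(0, 1), s(0, 2), s(0, 5), s(1, 4), s(2, 3)} := by
      intro e he
      rw [SimpleGraph.mem_edgeFinset, mem_T] at he
      simp only [Finset.mem_insert, Finset.mem_singleton]
      exact he
    exact (Finset.card_le_card this).trans (by decide)
  have h3 : (T.edgeFinset.card : ℝ) ≤ 5 := by exact_mod_cast h2
  have h4 : (Fintype.card (Fin 6) : ℝ) = 6 := by simp
  rw [h4] at h1
  linarith

/-- Nothing happens to frozen vertices. -/
lemma frozen_mono (α : ℝ) (s s' : State (Fin 6)) (h : rate T α s s' ≠ 0) :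
    s.2 ⊆ s'.2 ∧ ∀ e ∈ s'.1, e ∈ s.1 ∨ (e ∈ T.edgeSet ∧ ∀ v ∈ e, v ∉ s.2) := by
  unfold rate at h
  have h2 : Opens T s s' ∨ Freezes s s' := by
    by_contra hcon
    push Not at hcon
    rw [if_neg hcon.1, if_neg hcon.2, add_zero] at h
    exact h rfl
  rcases h2 with ⟨e, he, hes, hw, rfl⟩ | ⟨v, hv, rfl⟩
  · refine ⟨Finset.Subset.refl _, ?_⟩
    intro e' he'
    rcases Finset.mem_insert.1 he' with rfl | h
    · exact Or.inr ⟨he, hw⟩
    · exact Or.inl h
  · exact ⟨Finset.subset_union_left, fun e he => Or.inl he⟩

lemma not_adj_empty (F : Finset (Fin 6)) (v u : Fin 6) :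
    u ∈ cluster ((∅, F) : State (Fin 6)) v ↔ u = v := by
  unfold cluster
  simp only [Finset.mem_filter, Finset.mem_univ, true_and, Finset.coe_empty,
    SimpleGraph.fromEdgeSet_empty]
  rw [SimpleGraph.reachable_bot]
  exact eq_comm

/-! ### Lower bounds for the complements -/

/-- Indicator of the complement of an event. -/
noncomputable def indc (A : Set (Finset (Sym2 (Fin 6)))) (s : State (Fin 6)) : ℝ :=
  open Classical in if s.1 ∈ A then 0 else 1

lemma indc_nonneg (A : Set (Finset (Sym2 (Fin 6)))) (s : State (Fin 6)) : 0 ≤ indc A s := by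
  unfold indc; split_ifs <;> norm_num

lemma rate_open (α : ℝ) (hα : 0 < α) (s s' : State (Fin 6)) (h : Opens T s s') :
    1 ≤ rate T α s s' := by
  unfold rate
  rw [if_pos h]
  split_ifs <;> linarith

lemma rate_freeze (α : ℝ) (s s' : State (Fin 6)) (h : Freezes s s') :
    α ≤ rate T α s s' := by
  unfold rate
  rw [if_pos h]
  split_ifs <;> linarith

lemma lowerA (α : ℝ) (hα : 0 < α) (hα1 : α ≤ 1 / 6) (n : ℕ) :
    α / 6 ≤ (J T α)^[n + 1] (indc evA) (∅, ∅) := by
  set s1 : State (Fin 6) := (∅, ∅ ∪ cluster ((∅, ∅) : State (Fin 6)) 0) with hs1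
  have hF : Freezes ((∅, ∅) : State (Fin 6)) s1 := ⟨0, by simp, rfl⟩
  have hr := rate_freeze α _ _ hF
  have hr0 : 0 < rate T α ((∅, ∅) : State (Fin 6)) s1 := lt_of_lt_of_le hα hr
  have h1 := iter_succ_ge T α hα (indc evA) (indc_nonneg evA) (∅, ∅) s1 n 6
    (total_T α hα hα1 _) hr0
  have h2 : (J T α)^[n] (indc evA) s1 = 1 := by
    apply iter_closed T α {s | (0 : Fin 6) ∈ s.2 ∧ s.1 ∉ evA}
    · rintro s ⟨hs1, hs2⟩ s' hr
      obtain ⟨k1, k2⟩ := frozen_mono α s s' hr
      refine ⟨k1 hs1, ?_⟩
      intro hmem
      apply hs2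
      rcases hmem with h | h | h
      · rcases k2 _ h with h' | ⟨-, h'⟩
        · exact Or.inl h'
        · exact absurd hs1 (h' 0 (by simp))
      · rcases k2 _ h with h' | ⟨-, h'⟩
        · exact Or.inr (Or.inl h')
        · exact absurd hs1 (h' 0 (by simp))
      · rcases k2 _ h with h' | ⟨-, h'⟩
        · exact Or.inr (Or.inr h')
        · exact absurd hs1 (h' 0 (by simp))
    · rintro s ⟨-, hs2⟩
      unfold indc
      rw [if_neg hs2]
    · refine ⟨?_, ?_⟩
      · rw [hs1]
        simp only [Finset.empty_union]
        exact mem_cluster_self _ _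
      · rw [hs1]
        simp [evA]
  rw [h2, mul_one] at h1
  refine le_trans ?_ h1
  exact div_le_div_of_nonneg_right hr (by norm_num)

lemma lowerB (α : ℝ) (hα : 0 < α) (hα1 : α ≤ 1 / 6) (n : ℕ) :
    α / 216 ≤ (J T α)^[n + 3] (indc evB) (∅, ∅) := by
  set s1 : State (Fin 6) := (insert s(0, 1) ∅, ∅) with hs1
  set s2 : State (Fin 6) := (insert s(0, 2) (insert s(0, 1) ∅), ∅) with hs2
  set s3 : State (Fin 6) := (s2.1, s2.2 ∪ cluster s2 0) with hs3
  have o1 : Opens T ((∅, ∅) : State (Fin 6)) s1 :=
    ⟨s(0, 1), by rw [mem_T]; left; rfl, by simp, by simp, rfl⟩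
  have o2 : Opens T s1 s2 :=
    ⟨s(0, 2), by rw [mem_T]; right; left; rfl, by rw [hs1]; decide, by rw [hs1]; simp, rfl⟩
  have f3 : Freezes s2 s3 := ⟨0, by rw [hs2]; simp, rfl⟩
  have r1 := rate_open α hα _ _ o1
  have r2 := rate_open α hα _ _ o2
  have r3 := rate_freeze α _ _ f3
  have h1 := iter_succ_ge T α hα (indc evB) (indc_nonneg evB) (∅, ∅) s1 (n + 2) 6
    (total_T α hα hα1 _) (by linarith)
  have h2 := iter_succ_ge T α hα (indc evB) (indc_nonneg evB) s1 s2 (n + 1) 6
    (total_T α hα hα1 _) (by linarith)
  have h3 := iter_succ_ge T α hα (indc evB) (indc_nonneg evB) s2 s3 n 6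
    (total_T α hα hα1 _) (by linarith)
  have hadj : ∀ v : Fin 6, v = 1 ∨ v = 2 → v ∈ s3.2 := by
    intro v hv
    rw [hs3]
    simp only
    apply Finset.mem_union_right
    unfold cluster
    rw [Finset.mem_filter]
    refine ⟨Finset.mem_univ _, SimpleGraph.Adj.reachable ?_⟩
    rw [SimpleGraph.fromEdgeSet_adj, hs2]
    rcases hv with rfl | rfl <;> simp
  have h4 : (J T α)^[n] (indc evB) s3 = 1 := by
    apply iter_closed T α {s | (1 : Fin 6) ∈ s.2 ∧ (2 : Fin 6) ∈ s.2 ∧ s.1 ∉ evB}
    · rintro s ⟨ha, hb, hc⟩ s' hr
      obtain ⟨k1, k2⟩ := frozen_mono α s s' hr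
      refine ⟨k1 ha, k1 hb, ?_⟩
      intro hmem
      apply hc
      rcases hmem with h | h
      · rcases k2 _ h with h' | ⟨-, h'⟩
        · exact Or.inl h'
        · exact absurd ha (h' 1 (by simp))
      · rcases k2 _ h with h' | ⟨-, h'⟩
        · exact Or.inr h'
        · exact absurd hb (h' 2 (by simp))
    · rintro s ⟨-, -, hs2⟩
      unfold indc
      rw [if_neg hs2]
    · refine ⟨hadj 1 (Or.inl rfl), hadj 2 (Or.inr rfl), ?_⟩
      rw [hs3, hs2]
      unfold evB
      simp only [Set.mem_ofPred_eq]
      decide
  rw [h4, mul_one] at h3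
  have g3 : α / 6 ≤ (J T α)^[n + 1] (indc evB) s2 :=
    le_trans (div_le_div_of_nonneg_right r3 (by norm_num)) h3
  have g2 : 1 / 6 * (α / 6) ≤ (J T α)^[n + 1 + 1] (indc evB) s1 := by
    refine le_trans ?_ h2
    exact mul_le_mul (div_le_div_of_nonneg_right r2 (by norm_num)) g3 (by positivity)
      (by positivity)
  have g1 : 1 / 6 * (1 / 6 * (α / 6)) ≤ (J T α)^[n + 2 + 1] (indc evB) (∅, ∅) := by
    refine le_trans ?_ h1
    exact mul_le_mul (div_le_div_of_nonneg_right r1 (by norm_num)) g2 (by positivity)
      (by positivity)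
  have e : 1 / 6 * (1 / 6 * (α / 6)) = α / 216 := by ring
  rw [e] at g1
  exact g1

/-! ### Upper bound for the empty configuration -/

/-- The number of edges of the matching `05, 14, 23` with two warm endpoints. -/
def km (F : Finset (Fin 6)) : ℕ :=
  (if (0 : Fin 6) ∉ F ∧ (5 : Fin 6) ∉ F then 1 else 0) +
  (if (1 : Fin 6) ∉ F ∧ (4 : Fin 6) ∉ F then 1 else 0) +
  (if (2 : Fin 6) ∉ F ∧ (3 : Fin 6) ∉ F then 1 else 0)

lemma km_insert (F : Finset (Fin 6)) (v : Fin 6) : km F ≤ km (F ∪ {v}) + 1 := by
  revert F v
  decide +kernel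

/-- The superharmonic function. -/
noncomputable def hf (α : ℝ) (s : State (Fin 6)) : ℝ :=
  open Classical in
  if s.1 ∈ evA ∨ s.1 ∈ evB then 0 else if s.1 = ∅ then (6 * α) ^ km s.2 else 1

lemma hf_nonneg (α : ℝ) (hα : 0 < α) (s : State (Fin 6)) : 0 ≤ hf α s := by
  unfold hf
  split_ifs <;> positivity

lemma hf_le_one (α : ℝ) (hα : 0 < α) (hα1 : α ≤ 1 / 6) (s : State (Fin 6)) : hf α s ≤ 1 := by
  unfold hf
  split_ifs
  · norm_num
  · exact pow_le_one₀ (by positivity) (by linarith)
  · norm_num

lemma empty_not : (∅ : Finset (Sym2 (Fin 6))) ∉ evA ∧ (∅ : Finset (Sym2 (Fin 6))) ∉ evB := by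
  constructor
  · simp [evA]
  · simp [evB]

/-- While a matching edge has two warm endpoints the total rate is at least one. -/
lemma one_le_total (α : ℝ) (hα : 0 < α) (F : Finset (Fin 6)) (h : 1 ≤ km F) :
    1 ≤ total T α ((∅, F) : State (Fin 6)) := by
  have key : ∀ a b : Fin 6, s(a, b) ∈ T.edgeSet → a ∉ F → b ∉ F →
      1 ≤ total T α ((∅, F) : State (Fin 6)) := by
    intro a b hab ha hb
    have ho : Opens T ((∅, F) : State (Fin 6)) (insert s(a, b) ∅, F) := by
      refine ⟨s(a, b), hab, by simp, ?_, rfl⟩
      intro v hv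
      rw [Sym2.mem_iff] at hv
      rcases hv with rfl | rfl
      · exact ha
      · exact hb
    exact le_trans (rate_open α hα _ _ ho) (rate_le_total T α hα _ _)
  unfold km at h
  by_cases h1 : (0 : Fin 6) ∉ F ∧ (5 : Fin 6) ∉ F
  · exact key 0 5 (by rw [mem_T]; simp) h1.1 h1.2
  · by_cases h2 : (1 : Fin 6) ∉ F ∧ (4 : Fin 6) ∉ F
    · exact key 1 4 (by rw [mem_T]; simp) h2.1 h2.2
    · by_cases h3 : (2 : Fin 6) ∉ F ∧ (3 : Fin 6) ∉ F
      · exact key 2 3 (by rw [mem_T]; simp) h3.1 h3.2
      · rw [if_neg h1, if_neg h2, if_neg h3] at h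
        omega

lemma hf_super (α : ℝ) (hα : 0 < α) (hα1 : α ≤ 1 / 6) (s : State (Fin 6)) :
    J T α (hf α) s ≤ hf α s := by
  classical
  by_cases h0 : total T α s = 0
  · rw [J_absorbed T α _ s h0]
  have htot : 0 < total T α s := lt_of_le_of_ne (total_nonneg T α hα s) (Ne.symm h0)
  have e := J_eq T α (hf α) s h0
  rw [e, div_le_iff₀ htot]
  by_cases hE : s.1 ∈ evA ∨ s.1 ∈ evB
  · -- an edge is open
    have : ∀ s', rate T α s s' * hf α s' = 0 := by
      intro s'
      by_cases hr : rate T α s s' = 0
      · rw [hr, zero_mul]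
      · have hsub : s.1 ⊆ s'.1 := by
          unfold rate at hr
          have h2 : Opens T s s' ∨ Freezes s s' := by
            by_contra hcon
            push Not at hcon
            rw [if_neg hcon.1, if_neg hcon.2, add_zero] at hr
            exact hr rfl
          rcases h2 with ⟨e, -, -, -, rfl⟩ | ⟨v, -, rfl⟩
          · exact Finset.subset_insert _ _
          · exact Finset.Subset.refl _
        have : hf α s' = 0 := by
          unfold hf
          rw [if_pos]
          rcases hE with (h | h | h) | (h | h)
          · exact Or.inl (Or.inl (hsub h))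
          · exact Or.inl (Or.inr (Or.inl (hsub h)))
          · exact Or.inl (Or.inr (Or.inr (hsub h)))
          · exact Or.inr (Or.inl (hsub h))
          · exact Or.inr (Or.inr (hsub h))
        rw [this, mul_zero]
    rw [sum_eq_zero' _ this]
    exact mul_nonneg (hf_nonneg α hα s) htot.le
  · by_cases h1 : hf α s = 1
    · rw [h1, one_mul]
      exact sum_le_total T α hα s _ (hf_le_one α hα hα1)
    · -- no edge is open and the matching has a warm edge
      have hemp : s.1 = ∅ := by
        by_contra hne
        apply h1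
        unfold hf
        rw [if_neg hE, if_neg hne]
      obtain ⟨ω, F⟩ := s
      simp only at hemp
      subst hemp
      have hval : hf α ((∅, F) : State (Fin 6)) = (6 * α) ^ km F := by
        unfold hf
        rw [if_neg hE, if_pos rfl]
      have hk : 1 ≤ km F := by
        by_contra hk
        have : km F = 0 := by omega
        rw [hval, this, pow_zero] at h1
        exact h1 rfl
      have ht1 := one_le_total α hα F hk
      rw [hval]
      have hpos : 0 ≤ α * (6 * α) ^ (km F - 1) := by positivity
      -- bound of the sum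
      have hO0 : ∀ s', Opens T ((∅, F) : State (Fin 6)) s' →
          rate T α ((∅, F) : State (Fin 6)) s' * hf α s' = 0 := by
        intro s' hO
        have h2 : hf α s' = 0 := by
          obtain ⟨e, he, -, -, rfl⟩ := hO
          unfold hf
          rw [if_pos]
          rw [mem_T] at he
          unfold evA evB
          rcases he with rfl | rfl | rfl | rfl | rfl <;> simp
        rw [h2, mul_zero]
      have hsum := sum_le_freezes ((∅, F) : State (Fin 6))
        (fun s' => rate T α ((∅, F) : State (Fin 6)) s' * hf α s') _ hpos (by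
          intro s' hFr
          by_cases hO : Opens T ((∅, F) : State (Fin 6)) s'
          · rw [hO0 s' hO]
            exact hpos
          · have hr : rate T α ((∅, F) : State (Fin 6)) s' = α := by
              unfold rate
              rw [if_neg hO, if_pos hFr, zero_add]
            rw [hr]
            apply mul_le_mul_of_nonneg_left _ hα.le
            obtain ⟨v, -, rfl⟩ := hFr
            have hcl : cluster ((∅, F) : State (Fin 6)) v = {v} := by
              ext u
              rw [not_adj_empty, Finset.mem_singleton]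
            rw [hcl]
            unfold hf
            rw [if_neg (not_or.2 empty_not), if_pos rfl]
            apply pow_le_pow_of_le_one (by positivity) (by linarith)
            have := km_insert F v
            simp only
            omega) (by
          intro s' hFr
          by_cases hO : Opens T ((∅, F) : State (Fin 6)) s'
          · rw [hO0 s' hO]
          · have hr : rate T α ((∅, F) : State (Fin 6)) s' = 0 := by
              unfold rate
              rw [if_neg hO, if_neg hFr, zero_add]
            rw [hr, zero_mul])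
      refine le_trans hsum ?_
      obtain ⟨k, hk2⟩ : ∃ k, km F = k + 1 := ⟨km F - 1, by omega⟩
      have h6 : (Fintype.card (Fin 6) : ℝ) = 6 := by simp
      rw [h6]
      calc 6 * (α * (6 * α) ^ (km F - 1)) = (6 * α) ^ km F := by
            rw [hk2, Nat.add_sub_cancel]; ring
        _ ≤ (6 * α) ^ km F * total T α ((∅, F) : State (Fin 6)) :=
            le_mul_of_one_le_right (by positivity) ht1

lemma iter_hf (α : ℝ) (hα : 0 < α) (hα1 : α ≤ 1 / 6) (n : ℕ) (s : State (Fin 6)) :
    (J T α)^[n] (hf α) s ≤ hf α s := by
  induction n generalizing s with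
  | zero => exact le_refl _
  | succ n ih =>
    rw [Function.iterate_succ_apply]
    exact (iter_mono T α hα n _ _ (hf_super α hα hα1) s).trans (ih s)

/-- Indicator of the intersection of the complements. -/
noncomputable def indAB (s : State (Fin 6)) : ℝ := indc evA s * indc evB s

lemma upper (α : ℝ) (hα : 0 < α) (hα1 : α ≤ 1 / 6) (n : ℕ)
    (hn : cap T ((∅, ∅) : State (Fin 6)) ≤ n) :
    (J T α)^[n] indAB (∅, ∅) ≤ (6 * α) ^ 3 := by
  classical
  set g : State (Fin 6) → ℝ := fun s => if total T α s = 0 then indAB s else 0 with hg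
  have h1 : (J T α)^[n] indAB (∅, ∅) = (J T α)^[n] g (∅, ∅) := by
    apply iter_congr T α n _ _ _ _ hn
    intro s hs
    rw [hg]
    simp only
    rw [if_pos hs]
  have h2 : ∀ s, g s ≤ hf α s := by
    intro s
    rw [hg]
    simp only
    split_ifs with h
    · unfold indAB indc hf
      by_cases ha : s.1 ∈ evA
      · rw [if_pos ha, if_pos (Or.inl ha), zero_mul]
      · by_cases hb : s.1 ∈ evB
        · rw [if_pos hb, if_pos (Or.inr hb), mul_zero]
        · rw [if_neg ha, if_neg hb, if_neg (not_or.2 ⟨ha, hb⟩)]
          split_ifs with he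
          · have : km s.2 = 0 := by
              by_contra hk
              have h3 := one_le_total α hα s.2 (by omega)
              have h4 : ((∅, s.2) : State (Fin 6)) = s := by rw [← he]
              rw [h4, h] at h3
              linarith
            rw [this, pow_zero]
            norm_num
          · norm_num
    · exact hf_nonneg α hα s
  rw [h1]
  refine (iter_mono T α hα n _ _ h2 _).trans ((iter_hf α hα hα1 n _).trans ?_)
  unfold hf
  rw [if_neg (not_or.2 empty_not), if_pos rfl]
  have : km (∅ : Finset (Fin 6)) = 3 := by decide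
  rw [this]

/-- **The FKG inequality fails.**  For the tree with edges `01, 02, 05, 14, 23` and every rate
`0 < α ≤ 10⁻⁶` the increasing events `some edge at 0 is open` and `14 or 23 is open` have final
probabilities with `P (A ∩ B) < P A * P B`. -/
theorem result (α : ℝ) (hα : 0 < α) (hα1 : α ≤ 1 / 1000000) :
    Increasing evA ∧ Increasing evB ∧
    ∃ pA pB pAB : ℝ, IsFinalProb T α evA pA ∧ IsFinalProb T α evB pB ∧
      IsFinalProb T α (evA ∩ evB) pAB ∧ pAB < pA * pB := by
  classical
  refine ⟨?_, ?_, fin T α evA, fin T α evB, fin T α (evA ∩ evB), isFinalProb_fin T α _,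
    isFinalProb_fin T α _, isFinalProb_fin T α _, ?_⟩
  · rintro ω ω' (h | h | h) hs
    · exact Or.inl (hs h)
    · exact Or.inr (Or.inl (hs h))
    · exact Or.inr (Or.inr (hs h))
  · rintro ω ω' (h | h) hs
    · exact Or.inl (hs h)
    · exact Or.inr (hs h)
  · have hα6 : α ≤ 1 / 6 := by linarith
    set N := cap T ((∅, ∅) : State (Fin 6)) with hN
    have hN3 : 3 ≤ N := by
      have : (Finset.univ \ (∅ : Finset (Fin 6))).card = 6 := by simp
      rw [hN]
      unfold cap
      simp only
      omega
    obtain ⟨n, hn⟩ : ∃ n, N = n + 3 := ⟨N - 3, by omega⟩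
    set a := (J T α)^[N] (indc evA) (∅, ∅) with ha
    set b := (J T α)^[N] (indc evB) (∅, ∅) with hb
    set c := (J T α)^[N] indAB (∅, ∅) with hc
    have eA : fin T α evA = 1 - a := by
      unfold fin jumpProb
      have : (ind evA : State (Fin 6) → ℝ) =
          fun s => (-1) * indc evA s + 0 * indc evB s + 1 := by
        funext s
        unfold indc ind
        split_ifs <;> norm_num
      rw [this, iter_lin, ha]
      ring
    have eB : fin T α evB = 1 - b := by
      unfold fin jumpProb
      have : (ind evB : State (Fin 6) → ℝ) =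
          fun s => (-1) * indc evB s + 0 * indc evB s + 1 := by
        funext s
        unfold indc ind
        split_ifs <;> norm_num
      rw [this, iter_lin, hb]
      ring
    have eAB : fin T α (evA ∩ evB) = 1 - a - b + c := by
      unfold fin jumpProb
      have : (ind (evA ∩ evB) : State (Fin 6) → ℝ) =
          fun s => 1 * ((fun s => (-1) * indc evA s + (-1) * indc evB s + 1) s) +
            1 * indAB s + 0 := by
        funext s
        unfold indAB indc ind
        by_cases h1 : s.1 ∈ evA
        · by_cases h2 : s.1 ∈ evB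
          · simp [h1, h2]
          · simp [h1, h2]
        · by_cases h2 : s.1 ∈ evB
          · simp [h1, h2]
          · simp [h1, h2]
      rw [this, iter_lin, iter_lin, ha, hb, hc]
      ring
    have hA : α / 6 ≤ a := by
      rw [ha, hn]
      exact lowerA α hα hα6 (n + 2)
    have hB : α / 216 ≤ b := by
      rw [hb, hn]
      exact lowerB α hα hα6 n
    have hC : c ≤ (6 * α) ^ 3 := upper α hα hα6 N (le_refl _)
    rw [eA, eB, eAB]
    have h1 : α / 6 * (α / 216) ≤ a * b :=
      mul_le_mul hA hB (by positivity) (le_trans (by positivity) hA)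
    have h2 : (6 * α) ^ 3 < α / 6 * (α / 216) := by
      have e1 : (6 * α) ^ 3 = α ^ 2 * (216 * α) := by ring
      have e2 : α / 6 * (α / 216) = α ^ 2 * (1 / 1296) := by ring
      rw [e1, e2]
      apply mul_lt_mul_of_pos_left _ (by positivity)
      linarith
    nlinarith

end Pool.Agent.Results.MP_b6680e_pr.FKGFails
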